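import Pool.Agent.H99.Trap.Defs2

/-!
# TRAP, module I3: the test functional is large on Brownian motion
-/

namespace Pool.Agent.H99.Trap

open MeasureTheory ProbabilityTheory Filter
open scoped ENNReal NNReal Topology

namespace I3

/-- discretisation of time -/
noncomputable def disc (n : ℕ) (s : ℝ≥0) : ℝ≥0 :=
  (⌊(s : ℝ) * ((n + 1 : ℕ) : ℝ)⌋₊ : ℝ≥0) / ((n + 1 : ℕ) : ℝ≥0)

lemma tendsto_disc (s : ℝ≥0) : Tendsto (fun n => disc n s) atTop (𝓝 s) := by
  rw [← NNReal.tendsto_coe]
  have h := tendsto_nat_floor_mul_div_atTop (R := ℝ) (a := (s : ℝ)) s.2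
  have h2 : Tendsto (fun n : ℕ => (((n + 1 : ℕ)) : ℝ)) atTop atTop :=
    tendsto_natCast_atTop_atTop.comp (tendsto_add_atTop_nat 1)
  refine (h.comp h2).congr fun n => ?_
  simp only [Function.comp_apply, disc, NNReal.coe_div, NNReal.coe_natCast]

variable {Ω : Type} [MeasurableSpace Ω] {P : Measure Ω}

/-- joint measurability of a process with almost surely continuous paths -/
lemma aemeasurable_joint {X : ℝ≥0 → Ω → ℝ} (hX : ∀ t, AEMeasurable (X t) P)
    (hc : ∀ᵐ ω ∂P, Continuous (X · ω)) {α : Type*} [MeasurableSpace α] (μ : Measure α)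
    [SFinite μ] [SFinite P] {f : α → ℝ≥0} (hf : Measurable f) :
    AEMeasurable (fun p : α × Ω => X (f p.1) p.2) (μ.prod P) := by
  refine aemeasurable_of_tendsto_metrizable_ae' (f := fun n (p : α × Ω) => X (disc n (f p.1)) p.2)
    (fun n => ?_) ?_
  · set G : ℕ × Ω → ℝ := fun q => (hX ((q.1 : ℝ≥0) / ((n + 1 : ℕ) : ℝ≥0))).mk _ q.2 with hG
    have hGm : Measurable G := by
      apply measurable_from_prod_countable_right
      intro k
      exact (hX ((k : ℝ≥0) / ((n + 1 : ℕ) : ℝ≥0))).measurable_mk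
    have hk : Measurable fun p : α × Ω =>
        ((⌊((f p.1 : ℝ≥0) : ℝ) * ((n + 1 : ℕ) : ℝ)⌋₊, p.2) : ℕ × Ω) := by
      apply Measurable.prodMk _ measurable_snd
      exact Nat.measurable_floor.comp
        ((measurable_coe_nnreal_real.comp (hf.comp measurable_fst)).mul_const _)
    refine ⟨_, hGm.comp hk, ?_⟩
    have h1 : ∀ᵐ ω ∂P, ∀ k : ℕ, X ((k : ℝ≥0) / ((n + 1 : ℕ) : ℝ≥0)) ω =
        (hX ((k : ℝ≥0) / ((n + 1 : ℕ) : ℝ≥0))).mk _ ω :=
      ae_all_iff.2 fun k => (hX _).ae_eq_mk
    have h2 := (Measure.quasiMeasurePreserving_snd (μ := μ) (ν := P)).ae h1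
    filter_upwards [h2] with p hp
    exact hp _
  · have h2 := (Measure.quasiMeasurePreserving_snd (μ := μ) (ν := P)).ae hc
    filter_upwards [h2] with p hp
    exact (hp.tendsto (f p.1)).comp (tendsto_disc (f p.1))

/-- expectation of a function of a normalised increment -/
lemma increment {B : ℝ≥0 → Ω → ℝ} (hB : IsBrownianReal B P) {s t : ℝ≥0} (h : t < s) (σ : ℝ)
    {g : ℝ → ℝ} (hg : Measurable g) :
    ∫ ω, g ((σ * B s ω - σ * B t ω) / √((s : ℝ) - t)) ∂P = ∫ x, g (σ * x) ∂gaussianReal 0 1 := by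
  have hst : (0 : ℝ) < (s : ℝ) - t := by
    have : (t : ℝ) < s := h
    linarith
  have h1 := gaussianReal_mul_const (hB.toIsPreBrownianReal.hasLaw_sub s t) (√((s : ℝ) - t))⁻¹
  have h2 : gaussianReal ((√((s : ℝ) - t))⁻¹ * 0)
      (.mk ((√((s : ℝ) - t))⁻¹ ^ 2) (sq_nonneg _) * nndist s.1 t.1) = gaussianReal 0 1 := by
    congr 1
    · ring
    · apply NNReal.coe_injective
      rw [NNReal.coe_mul, coe_nndist, Real.dist_eq]
      change (√((s : ℝ) - t))⁻¹ ^ 2 * |(s : ℝ) - t| = 1
      rw [abs_of_pos hst, inv_pow, Real.sq_sqrt hst.le]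
      field_simp
  rw [h2] at h1
  have h3 := h1.integral_comp (f := fun x => g (σ * x))
    (hg.comp (measurable_const_mul σ)).aestronglyMeasurable
  rw [← h3]
  congr 1
  ext ω
  simp only [Function.comp_apply, Pi.sub_apply]
  congr 1
  field_simp

/-- first coordinate factor of `hfun` -/
noncomputable def f0 (C : ℝ) (x : ℝ) : ℝ := min 1 (max 0 (|x| - C))

/-- second and third coordinate factor of `hfun` -/
noncomputable def f1 (θ : ℝ) (x : ℝ) : ℝ := max 0 (1 - |x| / θ)

/-- the factors -/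
noncomputable def ff (C θ : ℝ) (i : Fin 3) : ℝ → ℝ := if i = 0 then f0 C else f1 θ

lemma hfun_eq (C θ : ℝ) (z : Fin 3 → ℝ) : hfun C θ z = ∏ i, ff C θ i (z i) := by
  rw [Fin.prod_univ_three]
  simp [hfun, ff, f0, f1, mul_assoc]

lemma cont_ff (C : ℝ) {θ : ℝ} (i : Fin 3) : Continuous (ff C θ i) := by
  unfold ff
  split_ifs
  · unfold f0
    fun_prop
  · unfold f1
    fun_prop

lemma ff_nonneg (C : ℝ) {θ : ℝ} (i : Fin 3) (x : ℝ) : 0 ≤ ff C θ i x := by
  unfold ff
  split_ifs
  · exact le_min zero_le_one (le_max_left _ _)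
  · exact le_max_left _ _

lemma ff_le_one (C : ℝ) {θ : ℝ} (hθ : 0 < θ) (i : Fin 3) (x : ℝ) : ff C θ i x ≤ 1 := by
  unfold ff
  split_ifs
  · exact min_le_left _ _
  · apply max_le zero_le_one
    have : 0 ≤ |x| / θ := by positivity
    linarith

lemma hfun_nonneg (C : ℝ) {θ : ℝ} (z : Fin 3 → ℝ) : 0 ≤ hfun C θ z := by
  rw [hfun_eq]
  exact Finset.prod_nonneg fun i _ => ff_nonneg C i _

lemma hfun_le_one (C : ℝ) {θ : ℝ} (hθ : 0 < θ) (z : Fin 3 → ℝ) : hfun C θ z ≤ 1 := by
  rw [hfun_eq]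
  exact Finset.prod_le_one (fun i _ => ff_nonneg C i _) fun i _ => ff_le_one C hθ i _

/-- the constant `E h(σ g)` is positive -/
lemma const_pos {C θ σ : ℝ} (hθ : 0 < θ) (hσ : 0 < σ) (i : Fin 3) :
    0 < ∫ x, ff C θ i (σ * x) ∂gaussianReal 0 1 := by
  rw [integral_pos_iff_support_of_nonneg]
  · have hac := gaussianReal_absolutelyContinuous' 0 (one_ne_zero : (1 : ℝ≥0) ≠ 0)
    have hopen : IsOpen (Function.support fun x => ff C θ i (σ * x)) :=
      ((cont_ff C i).comp (continuous_const_mul σ)).isOpen_support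
    have hne : (Function.support fun x => ff C θ i (σ * x)).Nonempty := by
      unfold ff
      by_cases hi : i = 0
      · refine ⟨(|C| + 1) / σ, ?_⟩
        simp only [hi, if_true, Function.mem_support, f0]
        have h1 : σ * ((|C| + 1) / σ) = |C| + 1 := by field_simp
        rw [h1, abs_of_nonneg (by positivity)]
        have h2 : (0 : ℝ) < |C| + 1 - C := by
          have := le_abs_self C
          linarith
        exact (lt_min one_pos (lt_max_of_lt_right h2)).ne'
      · refine ⟨0, ?_⟩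
        simp [hi, f1]
    have hpos : 0 < volume (Function.support fun x => ff C θ i (σ * x)) :=
      hopen.measure_pos _ hne
    by_contra hcon
    have h0 : gaussianReal 0 1 (Function.support fun x => ff C θ i (σ * x)) = 0 :=
      le_antisymm (not_lt.1 hcon) zero_le
    exact hpos.ne' (hac h0)
  · intro x
    exact ff_nonneg C i _
  · refine Integrable.of_bound (C := 1)
      ((cont_ff C i).comp (continuous_const_mul σ)).aestronglyMeasurable (ae_of_all _ fun x => ?_)
    rw [Real.norm_eq_abs, abs_of_nonneg (ff_nonneg C i _)]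
    exact ff_le_one C hθ i _

/-- the test function of an increment has constant expectation -/
lemma hfun_increment {C θ σ : ℝ} {B : Fin 3 → ℝ≥0 → Ω → ℝ}
    (hB : ∀ i, IsBrownianReal (B i) P) (hind : iIndepFun (fun i ω s => B i s ω) P)
    {s t : ℝ≥0} (h : t < s) :
    ∫ ω, hfun C θ (fun i => (σ * B i s ω - σ * B i t ω) / √((s : ℝ) - t)) ∂P =
      ∏ i, ∫ x, ff C θ i (σ * x) ∂gaussianReal 0 1 := by
  have h1 := hind.comp (fun i (w : ℝ≥0 → ℝ) => ff C θ i ((σ * w s - σ * w t) / √((s : ℝ) - t)))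
    (fun i => by
      apply (cont_ff C i).measurable.comp
      fun_prop)
  have h2 := h1.integral_fun_prod_eq_prod_integral (fun i => by
    apply AEMeasurable.aestronglyMeasurable
    apply (cont_ff C i).measurable.comp_aemeasurable
    have a1 := (hB i).toIsPreBrownianReal.aemeasurable s
    have a2 := (hB i).toIsPreBrownianReal.aemeasurable t
    exact ((a1.const_mul σ).sub (a2.const_mul σ)).div_const _)
  simp only [hfun_eq]
  simp only [Function.comp_def] at h2
  rw [h2]
  refine Finset.prod_congr rfl fun i _ => ?_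
  exact increment (hB i) h σ (cont_ff C i).measurable

/-- the singular kernel, cut off at `ε` -/
noncomputable def ker (ε : ℝ) (p : UI × UI) : ℝ :=
  if ε ≤ (p.1 : ℝ) - p.2 then ((p.1 : ℝ) - p.2)⁻¹ else 0

lemma ker_nonneg {ε : ℝ} (hε : 0 < ε) (p : UI × UI) : 0 ≤ ker ε p := by
  unfold ker
  split_ifs with h
  · exact inv_nonneg.2 (hε.le.trans h)
  · exact le_rfl

lemma ker_le {ε : ℝ} (hε : 0 < ε) (p : UI × UI) : ker ε p ≤ ε⁻¹ := by
  unfold ker
  split_ifs with h
  · exact inv_anti₀ hε h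
  · exact (inv_pos.2 hε).le

lemma measurable_ker (ε : ℝ) : Measurable (ker ε) := by
  unfold ker
  have h : Measurable fun p : UI × UI => (p.1 : ℝ) - p.2 := by fun_prop
  exact Measurable.ite (measurableSet_le measurable_const h) h.inv measurable_const

lemma integrable_ker {ε : ℝ} (hε : 0 < ε) :
    Integrable (ker ε) ((volume : Measure UI).prod volume) := by
  refine Integrable.of_bound (C := ε⁻¹) (measurable_ker ε).aestronglyMeasurable
    (ae_of_all _ fun p => ?_)
  rw [Real.norm_eq_abs, abs_of_nonneg (ker_nonneg hε p)]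
  exact ker_le hε p

lemma inner_lower {ε : ℝ} (hε : 0 < ε) (hε2 : ε ≤ 1 / 2) (u : UI) (hu : (u : ℝ) ≤ 1 / 2) :
    Real.log ((1 / 2) / ε) ≤ ∫ v : UI, ker ε (v, u) := by
  set G : ℝ → ℝ := fun x => if ε ≤ x - u then (x - u)⁻¹ else 0 with hG
  have hGm : Measurable G := by
    have h : Measurable fun x : ℝ => x - (u : ℝ) := by fun_prop
    exact Measurable.ite (measurableSet_le measurable_const h) h.inv measurable_const
  have hG0 : ∀ x, 0 ≤ G x := by
    intro x
    simp only [hG]
    split_ifs with h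
    · exact inv_nonneg.2 (hε.le.trans h)
    · exact le_rfl
  have hG1 : ∀ x, G x ≤ ε⁻¹ := by
    intro x
    simp only [hG]
    split_ifs with h
    · exact inv_anti₀ hε h
    · exact (inv_pos.2 hε).le
  have e1 : ∫ v : UI, ker ε (v, u) = ∫ x in Set.Icc (0 : ℝ) 1, G x :=
    integral_subtype_comap measurableSet_Icc G
  have hu0 : (0 : ℝ) ≤ u := u.2.1
  have hint : IntegrableOn G (Set.Icc 0 1) := by
    refine Integrable.of_bound (C := ε⁻¹) hGm.aestronglyMeasurable (ae_of_all _ fun p => ?_)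
    rw [Real.norm_eq_abs, abs_of_nonneg (hG0 p)]
    exact hG1 p
  have e2 : ∫ x in Set.Icc ((u : ℝ) + ε) (u + 1 / 2), G x ≤ ∫ x in Set.Icc (0 : ℝ) 1, G x := by
    refine setIntegral_mono_set hint (ae_of_all _ hG0) ?_
    refine LE.le.eventuallyLE ?_
    intro x hx
    exact ⟨by linarith [hx.1], by linarith [hx.2]⟩
  have e3 : ∫ x in Set.Icc ((u : ℝ) + ε) (u + 1 / 2), G x =
      ∫ x in Set.Icc ((u : ℝ) + ε) (u + 1 / 2), (x - (u : ℝ))⁻¹ := by
    refine setIntegral_congr_fun measurableSet_Icc fun x hx => ?_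
    simp only [hG]
    rw [if_pos (by linarith [hx.1])]
  have e4 : ∫ x in Set.Icc ((u : ℝ) + ε) (u + 1 / 2), (x - (u : ℝ))⁻¹ =
      Real.log ((1 / 2) / ε) := by
    rw [integral_Icc_eq_integral_Ioc, ← intervalIntegral.integral_of_le (by linarith)]
    rw [intervalIntegral.integral_comp_sub_right (fun x => x⁻¹) (u : ℝ)]
    rw [add_sub_cancel_left, add_sub_cancel_left, integral_inv_of_pos hε (by norm_num)]
  rw [e1, ← e4, ← e3]
  exact e2

lemma ker_lower {ε : ℝ} (hε : 0 < ε) (hε2 : ε ≤ 1 / 2) :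
    Real.log ((1 / 2) / ε) / 2 ≤ ∫ p : UI × UI, ker ε p := by
  have hi := integrable_ker hε
  have e0 : ∫ p : UI × UI, ker ε p = ∫ u : UI, ∫ v : UI, ker ε (v, u) := integral_prod_symm _ hi
  have hL : 0 ≤ Real.log ((1 / 2) / ε) := Real.log_nonneg ((one_le_div hε).2 hε2)
  set L := Real.log ((1 / 2) / ε) with hLdef
  set g : ℝ → ℝ := fun x => if x ≤ 1 / 2 then L else 0 with hg
  have hgm : Measurable g := Measurable.ite measurableSet_Iic measurable_const measurable_const
  have e1 : ∫ u : UI, g u = ∫ x in Set.Icc (0 : ℝ) 1, g x :=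
    integral_subtype_comap measurableSet_Icc g
  have hg0 : ∀ x, 0 ≤ g x := by
    intro x
    simp only [hg]
    split_ifs
    · exact hL
    · exact le_rfl
  have hgL : ∀ x, g x ≤ L := by
    intro x
    simp only [hg]
    split_ifs
    · exact le_rfl
    · exact hL
  have hgint : IntegrableOn g (Set.Icc 0 1) := by
    refine Integrable.of_bound (C := L) hgm.aestronglyMeasurable (ae_of_all _ fun p => ?_)
    rw [Real.norm_eq_abs, abs_of_nonneg (hg0 p)]
    exact hgL p
  have e2 : ∫ x in Set.Icc (0 : ℝ) (1 / 2), g x ≤ ∫ x in Set.Icc (0 : ℝ) 1, g x := by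
    refine setIntegral_mono_set hgint (ae_of_all _ hg0) ?_
    refine LE.le.eventuallyLE ?_
    intro x hx
    exact ⟨hx.1, by linarith [hx.2]⟩
  have e3 : ∫ x in Set.Icc (0 : ℝ) (1 / 2), g x = L / 2 := by
    have : ∫ x in Set.Icc (0 : ℝ) (1 / 2), g x = ∫ x in Set.Icc (0 : ℝ) (1 / 2), L := by
      refine setIntegral_congr_fun measurableSet_Icc fun x hx => ?_
      simp only [hg]
      rw [if_pos hx.2]
    rw [this, setIntegral_const, smul_eq_mul, measureReal_def, Real.volume_Icc]
    rw [ENNReal.toReal_ofReal (by norm_num)]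
    ring
  rw [e0, ← e3]
  refine e2.trans ?_
  rw [← e1]
  refine integral_mono_of_nonneg (ae_of_all _ fun u => hg0 u) hi.integral_prod_right ?_
  refine ae_of_all _ fun u => ?_
  simp only [hg]
  split_ifs with h
  · exact inner_lower hε hε2 u h
  · exact integral_nonneg fun v => ker_nonneg hε _

/-- expectation of the functional -/
lemma expectation {C θ σ ε : ℝ} (hθ : 0 < θ) (hε : 0 < ε) {B : Fin 3 → ℝ≥0 → Ω → ℝ}
    (hB : ∀ i, IsBrownianReal (B i) P) (hind : iIndepFun (fun i ω s => B i s ω) P) :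
    ∫ ω, Phi C θ ε (fun u i => σ * B i ⟨u, u.2.1⟩ ω) ∂P =
      (∏ i, ∫ x, ff C θ i (σ * x) ∂gaussianReal 0 1) * ∫ p : UI × UI, ker ε p := by
  have hP : IsProbabilityMeasure P := hind.isProbabilityMeasure
  set T : UI → ℝ≥0 := fun u => ⟨u, u.2.1⟩ with hT
  have hTm : Measurable T := by
    apply Measurable.subtype_mk
    fun_prop
  set F : UI × UI → Ω → ℝ := fun p ω => ker ε p *
    hfun C θ (fun i => (σ * B i (T p.1) ω - σ * B i (T p.2) ω) / √((p.1 : ℝ) - p.2)) with hF
  have hPhi : ∀ ω, Phi C θ ε (fun u i => σ * B i ⟨u, u.2.1⟩ ω) = ∫ p : UI × UI, F p ω := by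
    intro ω
    unfold Phi
    congr 1
    ext p
    simp only [hF, ker]
    split_ifs with h
    · rfl
    · simp
  have hmeas : AEStronglyMeasurable (Function.uncurry F)
      (((volume : Measure UI).prod volume).prod P) := by
    apply AEMeasurable.aestronglyMeasurable
    have b1 : ∀ i, AEMeasurable (fun q : (UI × UI) × Ω => B i (T q.1.1) q.2)
        (((volume : Measure UI).prod volume).prod P) := fun i =>
      aemeasurable_joint (fun t => (hB i).toIsPreBrownianReal.aemeasurable t) (hB i).cont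
        ((volume : Measure UI).prod volume) (f := fun p : UI × UI => T p.1)
        (hTm.comp measurable_fst)
    have b2 : ∀ i, AEMeasurable (fun q : (UI × UI) × Ω => B i (T q.1.2) q.2)
        (((volume : Measure UI).prod volume).prod P) := fun i =>
      aemeasurable_joint (fun t => (hB i).toIsPreBrownianReal.aemeasurable t) (hB i).cont
        ((volume : Measure UI).prod volume) (f := fun p : UI × UI => T p.2)
        (hTm.comp measurable_snd)
    have b3 : ∀ i : Fin 3, AEMeasurable (fun q : (UI × UI) × Ω => ff C θ i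
        ((σ * B i (T q.1.1) q.2 - σ * B i (T q.1.2) q.2) / √((q.1.1 : ℝ) - q.1.2)))
        (((volume : Measure UI).prod volume).prod P) := by
      intro i
      apply (cont_ff C i).measurable.comp_aemeasurable
      refine (((b1 i).const_mul σ).sub ((b2 i).const_mul σ)).div ?_
      apply Measurable.aemeasurable
      fun_prop
    have b4 : AEMeasurable (fun q : (UI × UI) × Ω => ∏ i, ff C θ i
        ((σ * B i (T q.1.1) q.2 - σ * B i (T q.1.2) q.2) / √((q.1.1 : ℝ) - q.1.2)))
        (((volume : Measure UI).prod volume).prod P) :=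
      Finset.aemeasurable_fun_prod _ fun i _ => b3 i
    have b5 : AEMeasurable (fun q : (UI × UI) × Ω => ker ε q.1)
        (((volume : Measure UI).prod volume).prod P) :=
      ((measurable_ker ε).comp measurable_fst).aemeasurable
    refine (b5.mul b4).congr (ae_of_all _ fun q => ?_)
    simp only [hF, Function.uncurry, hfun_eq, Pi.mul_apply]
  have hint : Integrable (Function.uncurry F) (((volume : Measure UI).prod volume).prod P) := by
    refine Integrable.of_bound (C := ε⁻¹) hmeas (ae_of_all _ fun q => ?_)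
    simp only [hF, Function.uncurry]
    rw [norm_mul, Real.norm_eq_abs, Real.norm_eq_abs, abs_of_nonneg (ker_nonneg hε _),
      abs_of_nonneg (hfun_nonneg C _)]
    calc _ ≤ ε⁻¹ * 1 := mul_le_mul (ker_le hε _) (hfun_le_one C hθ _) (hfun_nonneg C _)
          (inv_pos.2 hε).le
      _ = ε⁻¹ := mul_one _
  have hswap : ∫ ω, (∫ p : UI × UI, F p ω) ∂P = ∫ p : UI × UI, (∫ ω, F p ω ∂P) :=
    (integral_integral_swap hint).symm
  simp only [hPhi]
  rw [hswap, ← integral_const_mul]
  congr 1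
  ext p
  simp only [hF]
  rw [integral_const_mul]
  unfold ker
  split_ifs with h
  · rw [mul_comm]
    congr 1
    have hlt : T p.2 < T p.1 := by
      change (p.2 : ℝ) < (p.1 : ℝ)
      linarith
    exact hfun_increment hB hind hlt
  · simp

end I3

theorem Phi_BM {C θ σ : ℝ} (hC : 0 < C) (hθ : 0 < θ) (hσ : 0 < σ) {Ω : Type}
    [MeasurableSpace Ω] {P : Measure Ω} {B : Fin 3 → ℝ≥0 → Ω → ℝ}
    (hB : ∀ i, IsBrownianReal (B i) P) (hind : iIndepFun (fun i ω s => B i s ω) P) (K : ℝ) :
    ∃ ε : ℝ, 0 < ε ∧ ε < 1 ∧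
      K < ∫ ω, Phi C θ ε (fun u i => σ * B i ⟨u, u.2.1⟩ ω) ∂P := by
  set c : ℝ := ∏ i, ∫ x, I3.ff C θ i (σ * x) ∂gaussianReal 0 1 with hc
  have hcpos : 0 < c := Finset.prod_pos fun i _ => I3.const_pos hθ hσ i
  obtain ⟨M, hM⟩ : ∃ M : ℝ, 0 < M ∧ K < c * (M / 2) := by
    refine ⟨2 * ((|K| + 1) / c), by positivity, ?_⟩
    have : c * (2 * ((|K| + 1) / c) / 2) = |K| + 1 := by field_simp
    rw [this]
    linarith [le_abs_self K]
  refine ⟨(1 / 2) * Real.exp (-M), by positivity, ?_, ?_⟩
  · have : Real.exp (-M) < 1 := Real.exp_lt_one_iff.2 (by linarith [hM.1])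
    linarith
  · have hε : (0 : ℝ) < (1 / 2) * Real.exp (-M) := by positivity
    have hε2 : (1 / 2) * Real.exp (-M) ≤ 1 / 2 := by
      have : Real.exp (-M) < 1 := Real.exp_lt_one_iff.2 (by linarith [hM.1])
      linarith
    have h1 := I3.ker_lower hε hε2
    have h2 : Real.log ((1 / 2) / ((1 / 2) * Real.exp (-M))) = M := by
      have : ((1 : ℝ) / 2) / ((1 / 2) * Real.exp (-M)) = Real.exp M := by
        rw [Real.exp_neg]
        field_simp
      rw [this, Real.log_exp]
    rw [h2] at h1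
    rw [I3.expectation hθ hε hB hind]
    exact hM.2.trans_le (mul_le_mul_of_nonneg_left h1 hcpos.le)

end Pool.Agent.H99.Trap
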